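import Pool.Agent.H84.SL.Targets

/-!
# slg_modules, row GNA: divisibility of the determinant of a family of curves at a point of `C`
-/

set_option autoImplicit false

namespace Pool.Agent.H13.SL

open MvPolynomial SC Pool.Agent.H27.LV Pool.Agent.H84.SM Pool.Agent.H84.SL

set_option linter.unusedSectionVars false

section

variable {k L M : Type} [Field k] [Field L] [Algebra k L] [Field M] [Algebra L M] [Algebra k M]
  [IsScalarTower k L M]

theorem pd_coeff (δ : L → M) (h0 : δ 0 = 0) (A : Polynomial L) (j : ℕ) :
    (pd δ A).coeff j = δ (A.coeff j) := by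
  unfold pd
  rw [Polynomial.finsetSum_coeff]
  simp only [Polynomial.coeff_monomial]
  rw [Finset.sum_ite_eq']
  split_ifs with h
  · rfl
  · rw [Polynomial.coeff_eq_zero_of_natDegree_lt, h0]
    simpa using h

/-- the map of polynomials -/
noncomputable def phi (L M : Type) [Field L] [Field M] [Algebra L M] :
    Polynomial L →+* Polynomial M := Polynomial.mapRingHom (algebraMap L M)

/-- the chain rule -/
theorem chain (E : Polynomial L → Polynomial M) (hadd : ∀ A B, E (A + B) = E A + E B)
    (hmul : ∀ A B, E (A * B) = E A * phi L M B + phi L M A * E B)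
    (hC : ∀ a : k, E (Polynomial.C (algebraMap k L a)) = 0) (P : Fin 3 → Polynomial L)
    (H : MvPolynomial (Fin 3) k) :
    E (aeval P H) = ∑ i, phi L M (aeval P (pderiv i H)) * E (P i) := by
  induction H using MvPolynomial.induction_on with
  | C a =>
    have : aeval P (C a : MvPolynomial (Fin 3) k) = Polynomial.C (algebraMap k L a) := by
      rw [aeval_C]; rfl
    rw [this, hC]
    simp
  | add p q hp hq =>
    simp only [map_add, hadd, hp, hq, add_mul, Finset.sum_add_distrib]
  | mul_X p j hp =>
    rw [map_mul, aeval_X, hmul, hp]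
    have : ∀ i, phi L M (aeval P (pderiv i (p * X j))) * E (P i) =
        phi L M (aeval P (pderiv i p)) * E (P i) * phi L M (P j) +
        phi L M (aeval P p) * (if i = j then E (P i) else 0) := by
      intro i
      rw [Derivation.leibniz, smul_eq_mul, smul_eq_mul, map_add, map_mul, map_mul, map_add,
        map_mul, map_mul, aeval_X]
      by_cases h : i = j
      · subst h
        rw [pderiv_X_self, map_one, map_one, if_pos rfl]
        ring
      · rw [pderiv_X_of_ne (Ne.symm h), map_zero, map_zero, if_neg h]
        ring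
    simp only [this, Finset.sum_add_distrib, ← Finset.sum_mul, ← Finset.mul_sum]
    simp

theorem pd_mul (δ : Derivation k L M) (A B : Polynomial L) :
    pd δ (A * B) = pd δ A * phi L M B + phi L M A * pd δ B := by
  have h0 : (δ : L → M) 0 = 0 := map_zero δ
  ext j
  rw [pd_coeff _ h0, Polynomial.coeff_add, Polynomial.coeff_mul, Polynomial.coeff_mul,
    Polynomial.coeff_mul, map_sum, ← Finset.sum_add_distrib]
  refine Finset.sum_congr rfl fun x _ => ?_
  rw [pd_coeff _ h0, pd_coeff _ h0, Derivation.leibniz, Algebra.smul_def, Algebra.smul_def]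
  simp only [phi, Polynomial.coe_mapRingHom, Polynomial.coeff_map]
  ring

theorem pd_add (δ : Derivation k L M) (A B : Polynomial L) :
    pd δ (A + B) = pd δ A + pd δ B := by
  have h0 : (δ : L → M) 0 = 0 := map_zero δ
  ext j
  rw [pd_coeff _ h0, Polynomial.coeff_add, Polynomial.coeff_add, pd_coeff _ h0, pd_coeff _ h0,
    map_add]

theorem pd_C (δ : Derivation k L M) (c : L) : pd δ (Polynomial.C c) = Polynomial.C (δ c) := by
  have h0 : (δ : L → M) 0 = 0 := map_zero δ
  ext j
  rw [pd_coeff _ h0, Polynomial.coeff_C, Polynomial.coeff_C]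
  split_ifs
  · rfl
  · exact h0

theorem pd_X_pow (δ : Derivation k L M) (m : ℕ) : pd δ (Polynomial.X ^ m) = 0 := by
  have h0 : (δ : L → M) 0 = 0 := map_zero δ
  ext j
  rw [pd_coeff _ h0, Polynomial.coeff_X_pow, Polynomial.coeff_zero]
  split_ifs
  · exact Derivation.map_one_eq_zero δ
  · exact h0

theorem euler3 {R : Type} [CommRing R] [Algebra k R] {G : MvPolynomial (Fin 3) k} {d : ℕ}
    (hG : G.IsHomogeneous d) (x : Fin 3 → R) :
    ∑ i, x i * aeval x (pderiv i G) = (d : R) * aeval x G := by
  have h := congrArg (aeval x) hG.sum_X_mul_pderiv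
  simpa [map_sum, map_mul, nsmul_eq_mul] using h

theorem det_id {R : Type} [CommRing R] (g a b w : Fin 3 → R) (l : Fin 3) :
    g l * dt a b w = (∑ i, g i * a i) * cr b w l + (∑ i, g i * b i) * cr w a l +
      (∑ i, g i * w i) * cr a b l := by
  fin_cases l <;> simp [dt, dp, cr, Fin.sum_univ_three] <;> ring

end

theorem pf_GNA (hSMX : T_SMX) : T_GNA := by
  intro k _ _ _ G d hd hsm L M _ _ _ _ _ _ δ P c m hc hP hG
  rcases Nat.eq_zero_or_pos m with rfl | hm
  · rw [pow_zero]; exact one_dvd _
  have hGh := hsm.1
  set g : Fin 3 → Polynomial M := fun i => phi L M (aeval P (pderiv i G)) with hg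
  -- the three products
  have e1 : Polynomial.X ^ m ∣ ∑ i, g i * (P i).map (algebraMap L M) := by
    have : ∑ i, g i * (P i).map (algebraMap L M) =
        phi L M (∑ i, P i * aeval P (pderiv i G)) := by
      rw [map_sum]
      refine Finset.sum_congr rfl fun i _ => ?_
      rw [map_mul, mul_comm]
      rfl
    rw [this, euler3 hGh, hG, map_mul, map_mul, map_pow]
    have hX : phi L M Polynomial.X = Polynomial.X := by simp [phi]
    rw [hX]
    exact ⟨phi L M (d : Polynomial L) * phi L M (Polynomial.C c), by ring⟩
  have e2 : Polynomial.X ^ m ∣ ∑ i, g i * pd δ (P i) := by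
    have := chain (k := k) (fun A => pd δ A) (pd_add δ) (pd_mul δ)
      (fun a => by rw [pd_C, Derivation.map_algebraMap, Polynomial.C_0]) P G
    rw [← this, hG, pd_mul, pd_C, pd_X_pow, mul_zero, add_zero]
    simp [phi]
  have e3 : Polynomial.X ^ m ∣
      ∑ i, g i * (Polynomial.X * (Polynomial.derivative (P i)).map (algebraMap L M)) := by
    have := chain (k := k) (L := L) (M := M)
      (fun A => Polynomial.X * (Polynomial.derivative A).map (algebraMap L M))
      (fun A B => by simp only [Polynomial.derivative_add, Polynomial.map_add, mul_add])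
      (fun A B => by
        simp only [Polynomial.derivative_mul, Polynomial.map_add, Polynomial.map_mul, phi,
          Polynomial.coe_mapRingHom]
        ring)
      (fun a => by simp) P G
    rw [← this, hG]
    obtain ⟨n, rfl⟩ : ∃ n, m = n + 1 := ⟨m - 1, by omega⟩
    rw [Polynomial.derivative_C_mul_X_pow]
    simp only [Polynomial.map_mul, Polynomial.map_C, Polynomial.map_pow, Polynomial.map_X,
      Nat.add_sub_cancel]
    exact ⟨Polynomial.C (algebraMap L M (c * (n + 1 : ℕ))), by ring⟩
  obtain ⟨i0, hi0⟩ := hP
  have hne : ∃ l, aeval (fun i => (P i).coeff 0) (pderiv l G) ≠ 0 := by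
    by_contra h
    push Not at h
    exact hi0 (congrFun (hSMX k G d hd hsm L (fun i => (P i).coeff 0) h) i0)
  obtain ⟨l, hl⟩ := hne
  have hcoeff : ∀ H : MvPolynomial (Fin 3) k,
      (aeval P H).coeff 0 = aeval (fun i => (P i).coeff 0) H := by
    intro H
    induction H using MvPolynomial.induction_on with
    | C a => 
      rw [aeval_C, aeval_C]
      simp [Polynomial.algebraMap_apply]
    | add p q hp hq => rw [map_add, map_add, Polynomial.coeff_add, hp, hq]
    | mul_X p j hp =>
      rw [map_mul, map_mul, Polynomial.mul_coeff_zero, hp, aeval_X, aeval_X]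
  have hgl : ¬ Polynomial.X ∣ g l := by
    rw [Polynomial.X_dvd_iff]
    simp only [hg, phi, Polynomial.coe_mapRingHom, Polynomial.coeff_map, hcoeff]
    intro h
    exact hl ((map_eq_zero (algebraMap L M)).mp h)
  refine Polynomial.prime_X.pow_dvd_of_dvd_mul_left m hgl ?_
  rw [det_id]
  exact dvd_add (dvd_add (e1.mul_right _) (e2.mul_right _)) (e3.mul_right _)

end Pool.Agent.H13.SL
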